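import Pool.Agent.H18.GW.Targets
import Pool.Agent.H11.KT.Targets

/-!
# MP_0b603e_al, module PT: finitely generated perfect subgroups are trivial
-/

set_option autoImplicit false

open scoped commutatorElement

namespace Pool.Agent.H17.GWD

open Pool.Agent.H11.EL Pool.Agent.H11.KT Pool.Agent.H18.GW

theorem pf_PT (hKP : P_KP) : T_PT := by
  intro r w G _ Q _ π hsurj hker hfin hsol A hFG hAA
  obtain ⟨T, hT⟩ := hFG
  let s := T.card
  let u' : Fin s → Q := fun i => (T.equivFin.symm i : Q)
  have hu'r : Set.range u' = (T : Set _) := by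
    ext z
    constructor
    · rintro ⟨i, rfl⟩
      exact (T.equivFin.symm i).2
    · intro hz
      exact ⟨T.equivFin ⟨z, hz⟩, by simp [u']⟩
  choose u hu using fun i => hsurj (u' i)
  let L : Subgroup (∀ K, G K) := Subgroup.closure (Set.range u)
  have hLm : L.map π = A := by
    rw [← hT, ← hu'r, MonoidHom.map_closure, ← Set.range_comp]
    congr 2
    funext i
    exact hu i
  have hcex : ∀ i, ∃ c ∈ ⁅L, L⁆, π c = π (u i) := by
    intro i
    have h1 : π (u i) ∈ ⁅L, L⁆.map π := by
      rw [Subgroup.map_commutator, hLm, hAA, ← hLm]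
      exact ⟨u i, Subgroup.subset_closure ⟨i, rfl⟩, rfl⟩
    obtain ⟨c, hc, hc'⟩ := h1
    exact ⟨c, hc, hc'⟩
  choose c hcL hcu using hcex
  have hcN : ∀ i, π ((c i)⁻¹ * u i) = 1 := fun i => by
    rw [map_mul, map_inv, hcu, inv_mul_cancel]
  choose m hm using fun i => (hker _).1 (hcN i)
  obtain ⟨M₀, hM₀⟩ := hKP r w s (∑ i, m i)
  have hevL : ∀ K, L.map (Pi.evalMonoidHom G K) = Subgroup.closure (Set.range fun i => u i K) := by
    intro K
    rw [MonoidHom.map_closure, ← Set.range_comp]
    rfl
  have hKcomm : ∀ K, ∀ g ∈ (⁅Subgroup.closure (Set.range fun i => u i K),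
      Subgroup.closure (Set.range fun i => u i K)⁆ : Subgroup (G K)), PW w M₀ g := by
    intro K
    have hfin' : Finite (G K) := hfin K
    have hs : Group.IsSolvable (G K) := hsol K
    refine hM₀ (G K) (Subgroup.closure (Set.range fun i => u i K)) inferInstance
      (fun i => u i K) (fun i => c i K) rfl ?_ ?_
    · intro i
      rw [← hevL, ← Subgroup.map_commutator]
      exact ⟨c i, hcL i, rfl⟩
    · intro i
      exact (hm i K).mono (Finset.single_le_sum (fun j _ => Nat.zero_le (m j)) (Finset.mem_univ i))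
  have hu1 : ∀ i, π (u i) = 1 := by
    intro i
    refine (hker _).2 ⟨M₀ + m i, fun K => ?_⟩
    have h1 : c i K ∈ (⁅Subgroup.closure (Set.range fun i => u i K),
        Subgroup.closure (Set.range fun i => u i K)⁆ : Subgroup (G K)) := by
      rw [← hevL, ← Subgroup.map_commutator]
      exact ⟨c i, hcL i, rfl⟩
    have h2 := (hKcomm K _ h1).mul (hm i K)
    have h3 : c i K * ((c i)⁻¹ * u i) K = u i K := by
      change c i K * ((c i K)⁻¹ * u i K) = u i K
      rw [mul_inv_cancel_left]
    rwa [h3] at h2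
  rw [← hLm, MonoidHom.map_closure, ← Set.range_comp, Subgroup.closure_eq_bot_iff]
  rintro _ ⟨i, rfl⟩
  exact hu1 i

end Pool.Agent.H17.GWD
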